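import Pool.Agent.H31.LEV.Targets

/-!
# Board lev_modules, row NCT: the number of zeros in a larger disc
-/

set_option autoImplicit false

open Complex Filter Topology Set

namespace Pool.Agent.H56.LEV

open Pool.Agent.H31.LEV

/-- the Blaschke factor without the pole -/
noncomputable def bf (z₀ : ℂ) (R : ℝ) (ρ z : ℂ) : ℂ :=
  ((R : ℂ) ^ 2 - (starRingEnd ℂ) (ρ - z₀) * (z - z₀)) / R

theorem bf_diff (z₀ : ℂ) (R : ℝ) (Z : Multiset ℂ) :
    Differentiable ℂ (fun z => (Z.map (fun ρ => bf z₀ R ρ z)).prod) := by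
  induction Z using Multiset.induction with
  | empty =>
    simp only [Multiset.map_zero, Multiset.prod_zero]
    exact differentiable_const _
  | cons a s ih =>
    simp only [Multiset.map_cons, Multiset.prod_cons]
    refine Differentiable.mul ?_ ih
    unfold bf
    fun_prop

theorem bf_norm (z₀ : ℂ) (R : ℝ) (hR : 0 < R) (ρ z : ℂ) (hz : ‖z - z₀‖ = R) :
    ‖bf z₀ R ρ z‖ = ‖z - ρ‖ := by
  have h1 : (R : ℂ) ^ 2 = (z - z₀) * (starRingEnd ℂ) (z - z₀) := by
    rw [Complex.mul_conj, Complex.normSq_eq_norm_sq, hz]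
    push_cast
    ring
  have h2 : (R : ℂ) ^ 2 - (starRingEnd ℂ) (ρ - z₀) * (z - z₀) =
      (z - z₀) * (starRingEnd ℂ) (z - ρ) := by
    rw [h1]
    simp only [map_sub]
    ring
  unfold bf
  rw [h2, norm_div, norm_mul, hz, RCLike.norm_conj, Complex.norm_real, Real.norm_eq_abs,
    abs_of_pos hR]
  field_simp

theorem bf_center (z₀ : ℂ) (R : ℝ) (hR : 0 < R) (ρ : ℂ) : bf z₀ R ρ z₀ = R := by
  have : (R : ℂ) ≠ 0 := by exact_mod_cast hR.ne'
  unfold bf
  rw [sub_self, mul_zero, sub_zero, sq, mul_div_assoc, div_self this, mul_one]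

theorem prod_norm (z₀ : ℂ) (R : ℝ) (hR : 0 < R) (Z : Multiset ℂ) (z : ℂ) (hz : ‖z - z₀‖ = R) :
    ‖(Z.map (fun ρ => bf z₀ R ρ z)).prod‖ = ‖(Z.map (fun ρ => z - ρ)).prod‖ := by
  induction Z using Multiset.induction with
  | empty => simp
  | cons a s ih =>
    simp only [Multiset.map_cons, Multiset.prod_cons, norm_mul]
    rw [ih, bf_norm z₀ R hR a z hz]

theorem prod_center (z₀ : ℂ) (R : ℝ) (hR : 0 < R) (Z : Multiset ℂ) :
    (Z.map (fun ρ => bf z₀ R ρ z₀)).prod = (R : ℂ) ^ Multiset.card Z := by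
  induction Z using Multiset.induction with
  | empty => simp
  | cons a s ih =>
    simp only [Multiset.map_cons, Multiset.prod_cons, Multiset.card_cons]
    rw [ih, bf_center z₀ R hR a, pow_succ, mul_comm]

theorem prod_small (z₀ : ℂ) (r : ℝ) (hr : 0 < r) (Z : Multiset ℂ) (hZ : ∀ ρ ∈ Z, ‖ρ - z₀‖ ≤ r) :
    ‖(Z.map (fun ρ => z₀ - ρ)).prod‖ ≤ r ^ Multiset.card Z := by
  induction Z using Multiset.induction with
  | empty => simp
  | cons a s ih =>
    simp only [Multiset.map_cons, Multiset.prod_cons, Multiset.card_cons, norm_mul]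
    have h1 : ‖z₀ - a‖ ≤ r := by
      rw [norm_sub_rev]
      exact hZ a (Multiset.mem_cons_self a s)
    have h2 := ih fun ρ hρ => hZ ρ (Multiset.mem_cons_of_mem hρ)
    rw [pow_succ, mul_comm (r ^ _)]
    exact mul_le_mul h1 h2 (norm_nonneg _) hr.le

theorem pf_NCT : T_NCT := by
  intro f z₀ r R M Z g hr hrR hM hg hf hZ hb
  have key : ∀ R1 : ℝ, r < R1 → R1 < R → (R1 / r) ^ Multiset.card Z * ‖f z₀‖ ≤ M := by
    intro R1 h1 h2
    have hR1 : 0 < R1 := hr.trans h1
    have hsub : Metric.closedBall z₀ R1 ⊆ Metric.ball z₀ R := Metric.closedBall_subset_ball h2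
    have hd : DifferentiableOn ℂ (fun z => g z * (Z.map (fun ρ => bf z₀ R1 ρ z)).prod)
        (closure (Metric.ball z₀ R1)) := by
      rw [closure_ball z₀ hR1.ne']
      exact (hg.mono hsub).mul (bf_diff z₀ R1 Z).differentiableOn
    have h3 : ‖g z₀ * (Z.map (fun ρ => bf z₀ R1 ρ z₀)).prod‖ ≤ M := by
      refine Complex.norm_le_of_forall_mem_frontier_norm_le Metric.isBounded_ball
        hd.diffContOnCl (C := M) (z := z₀) ?_ ?_
      · intro z hz
        rw [frontier_ball z₀ hR1.ne', Metric.mem_sphere, dist_eq_norm] at hz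
        have hz' : z ∈ Metric.ball z₀ R := by
          rw [Metric.mem_ball, dist_eq_norm, hz]
          exact h2
        show ‖g z * (Z.map (fun ρ => bf z₀ R1 ρ z)).prod‖ ≤ M
        rw [norm_mul, prod_norm z₀ R1 hR1 Z z hz, mul_comm, ← norm_mul, ← hf z hz']
        exact hb z hz'
      · exact subset_closure (Metric.mem_ball_self hR1)
    rw [prod_center z₀ R1 hR1 Z, norm_mul, norm_pow, Complex.norm_real, Real.norm_eq_abs,
      abs_of_pos hR1] at h3
    have hz0 : z₀ ∈ Metric.ball z₀ R := Metric.mem_ball_self (hr.trans hrR)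
    have h4 : ‖f z₀‖ ≤ r ^ Multiset.card Z * ‖g z₀‖ := by
      rw [hf z₀ hz0, norm_mul]
      exact mul_le_mul_of_nonneg_right (prod_small z₀ r hr Z hZ) (norm_nonneg _)
    calc (R1 / r) ^ Multiset.card Z * ‖f z₀‖
        ≤ (R1 / r) ^ Multiset.card Z * (r ^ Multiset.card Z * ‖g z₀‖) := by
          apply mul_le_mul_of_nonneg_left h4
          positivity
      _ = ‖g z₀‖ * R1 ^ Multiset.card Z := by
          rw [div_pow]
          field_simp
      _ ≤ M := h3
  have hc : ContinuousAt (fun R1 : ℝ => (R1 / r) ^ Multiset.card Z * ‖f z₀‖) R := by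
    fun_prop
  have ht : Tendsto (fun R1 : ℝ => (R1 / r) ^ Multiset.card Z * ‖f z₀‖) (𝓝[<] R)
      (𝓝 ((R / r) ^ Multiset.card Z * ‖f z₀‖)) := hc.tendsto.mono_left nhdsWithin_le_nhds
  refine le_of_tendsto ht ?_
  filter_upwards [Ioo_mem_nhdsLT hrR] with R1 hR1
  exact key R1 hR1.1 hR1.2

end Pool.Agent.H56.LEV
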